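import Pool.Agent.W734.TWB.Stms

/-!
Project TWB, part SOB: the Sobolev inequality.
-/

set_option autoImplicit false

noncomputable section

namespace Pool.Agent.W119.TWB

open MeasureTheory Set Filter Metric Pool.Agent.W734.TWB

theorem op_le (L : E3 →L[ℝ] ℂ) :
    ‖L‖ ^ 2 ≤ ∑ k : Fin 3, ‖L (EuclideanSpace.single k (1 : ℝ))‖ ^ 2 := by
  have hS : 0 ≤ ∑ k : Fin 3, ‖L (EuclideanSpace.single k (1 : ℝ))‖ ^ 2 := by positivity
  have h : ‖L‖ ≤ Real.sqrt (∑ k : Fin 3, ‖L (EuclideanSpace.single k (1 : ℝ))‖ ^ 2) := by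
    refine L.opNorm_le_bound (Real.sqrt_nonneg _) fun v => ?_
    have hv : L v = ∑ k : Fin 3, v k • L (EuclideanSpace.single k (1 : ℝ)) := by
      conv_lhs => rw [← (EuclideanSpace.basisFun (Fin 3) ℝ).sum_repr v]
      rw [map_sum]
      refine Finset.sum_congr rfl fun k _ => ?_
      rw [map_smul, EuclideanSpace.basisFun_apply, EuclideanSpace.basisFun_repr]
    rw [hv]
    calc ‖∑ k : Fin 3, v k • L (EuclideanSpace.single k (1 : ℝ))‖
        ≤ ∑ k : Fin 3, ‖L (EuclideanSpace.single k (1 : ℝ))‖ * ‖v k‖ := by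
          refine (norm_sum_le _ _).trans (Finset.sum_le_sum fun k _ => ?_)
          rw [norm_smul, mul_comm]
      _ ≤ Real.sqrt (∑ k : Fin 3, ‖L (EuclideanSpace.single k (1 : ℝ))‖ ^ 2) *
          Real.sqrt (∑ k : Fin 3, ‖v k‖ ^ 2) := Real.sum_mul_le_sqrt_mul_sqrt _ _ _
      _ = _ := by rw [← EuclideanSpace.norm_eq]
  calc ‖L‖ ^ 2 ≤ (Real.sqrt (∑ k : Fin 3, ‖L (EuclideanSpace.single k (1 : ℝ))‖ ^ 2)) ^ 2 :=
        pow_le_pow_left₀ (norm_nonneg _) h 2
    _ = _ := Real.sq_sqrt hS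

theorem sob : S_SOB := by
  obtain ⟨C, hC⟩ : ∃ C : NNReal, ∀ u : E3 → ℂ, ContDiff ℝ 1 u → HasCompactSupport u →
      eLpNorm u 6 (volume : Measure E3) ≤ C * eLpNorm (fderiv ℝ u) 2 volume := by
    refine ⟨SNormLESNormFDerivOfEqConst ℂ (volume : Measure E3) 2, fun u hu h2u => ?_⟩
    have h := eLpNorm_le_eLpNorm_fderiv_of_eq (E := E3) (F := ℂ) (volume : Measure E3) hu h2u
      (p := 2) (p' := 6) (by norm_num) (by simp) (by simp; norm_num)
    simpa using h
  refine ⟨(C : ℝ) ^ 6, by positivity, fun u hu hsu => ?_⟩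
  have hu1 : ContDiff ℝ 1 u := hu.of_le (by exact_mod_cast le_top)
  have h1 := hC u hu1 hsu
  have hcu : Continuous u := hu.continuous
  have hcd : Continuous (fderiv ℝ u) := hu1.continuous_fderiv one_ne_zero
  have hsd : HasCompactSupport (fderiv ℝ u) := hsu.fderiv ℝ
  have m1 : MemLp u 6 (volume : Measure E3) := hcu.memLp_of_hasCompactSupport hsu
  have m2 : MemLp (fderiv ℝ u) 2 (volume : Measure E3) := hcd.memLp_of_hasCompactSupport hsd
  rw [m1.eLpNorm_eq_integral_rpow_norm (by norm_num) (by norm_num),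
    m2.eLpNorm_eq_integral_rpow_norm (by norm_num) (by norm_num)] at h1
  have e6 : ENNReal.toReal 6 = 6 := by norm_num
  have e2 : ENNReal.toReal 2 = 2 := by norm_num
  rw [e6, e2] at h1
  set A := ∫ x, ‖u x‖ ^ (6 : ℝ) with hA
  set D := ∫ x, ‖fderiv ℝ u x‖ ^ (2 : ℝ) with hD
  have hA0 : 0 ≤ A := integral_nonneg fun x => by positivity
  have hD0 : 0 ≤ D := integral_nonneg fun x => by positivity
  have h2 : A ^ (6 : ℝ)⁻¹ ≤ C * D ^ (2 : ℝ)⁻¹ := by
    rw [← ENNReal.ofReal_coe_nnreal, ← ENNReal.ofReal_mul (NNReal.coe_nonneg C)] at h1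
    exact (ENNReal.ofReal_le_ofReal_iff (by positivity)).1 h1
  have h3 : A ≤ (C : ℝ) ^ 6 * D ^ 3 := by
    have h4 : (A ^ (6 : ℝ)⁻¹) ^ 6 ≤ (C * D ^ (2 : ℝ)⁻¹) ^ 6 :=
      pow_le_pow_left₀ (by positivity) h2 6
    have h5 : (A ^ (6 : ℝ)⁻¹) ^ 6 = A := by
      rw [← Real.rpow_natCast, ← Real.rpow_mul hA0]
      norm_num
    have h6 : (D ^ (2 : ℝ)⁻¹) ^ 6 = D ^ 3 := by
      rw [← Real.rpow_natCast, ← Real.rpow_mul hD0, ← Real.rpow_natCast]
      norm_num
    rw [h5, mul_pow, h6] at h4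
    exact h4
  have h7 : D ≤ ∫ x, g3 u x := by
    rw [hD]
    refine integral_mono ?_ ?_ ?_
    · have : (fun x => ‖fderiv ℝ u x‖ ^ (2 : ℝ)) = fun x => ‖fderiv ℝ u x‖ ^ 2 := by
        funext x
        exact Real.rpow_natCast _ 2
      rw [this]
      refine Continuous.integrable_of_hasCompactSupport (by fun_prop) ?_
      refine hsd.mono ?_
      intro x hx
      rw [Function.mem_support] at hx ⊢
      intro h0
      apply hx
      rw [h0]
      simp
    · refine Continuous.integrable_of_hasCompactSupport ?_ ?_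
      · unfold g3
        fun_prop
      · refine hsd.mono ?_
        intro x hx
        rw [Function.mem_support] at hx ⊢
        intro h0
        apply hx
        unfold g3
        rw [h0]
        simp
    · intro x
      have := op_le (fderiv ℝ u x)
      show ‖fderiv ℝ u x‖ ^ (2 : ℝ) ≤ g3 u x
      rw [Real.rpow_two]
      exact this
  have h8 : ∫ x, ‖u x‖ ^ 6 = A := by
    rw [hA]
    refine integral_congr_ae (Filter.Eventually.of_forall fun x => ?_)
    show ‖u x‖ ^ 6 = ‖u x‖ ^ (6 : ℝ)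
    rw [← Real.rpow_natCast]
    norm_num
  rw [h8]
  refine h3.trans ?_
  have h9 : D ^ 3 ≤ (∫ x, g3 u x) ^ 3 := pow_le_pow_left₀ hD0 h7 3
  exact mul_le_mul_of_nonneg_left h9 (by positivity)

end Pool.Agent.W119.TWB
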